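import Mathlib

/-!
# Weil sums of binomials: congruences for the power moments and for polynomial moments
-/

set_option autoImplicit false

open Finset

namespace Pool.Agent.H67.Hel

section

variable {p : ℕ} [Fact p.Prime] {F : Type} [Field F] [Fintype F] [DecidableEq F]
  [Algebra (ZMod p) F]

variable (p F) in
/-- The canonical additive character. -/
noncomputable def psi : AddChar F ℂ :=
  (ZMod.stdAddChar (N := p)).compAddMonoidHom (Algebra.trace (ZMod p) F).toAddMonoidHom

theorem psi_apply (x : F) : psi p F x = ZMod.stdAddChar (Algebra.trace (ZMod p) F x) := rfl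

theorem psi_eq_exp (x : F) : psi p F x = Complex.exp (2 * Real.pi * Complex.I *
    ((Algebra.trace (ZMod p) F x).val : ℂ) / p) := by
  rw [psi_apply, ZMod.stdAddChar_apply, ZMod.toCircle_apply]

theorem psi_prim : (psi p F).IsPrimitive := by
  apply AddChar.IsPrimitive.of_ne_one
  rw [AddChar.ne_one_iff]
  obtain ⟨x, hx⟩ := Algebra.trace_surjective (ZMod p) F 1
  refine ⟨x, ?_⟩
  rw [psi_apply, hx]
  intro h
  rw [← (ZMod.stdAddChar (N := p)).map_zero_eq_one] at h
  exact one_ne_zero (ZMod.injective_stdAddChar h)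

theorem sum_psi_mul (b : F) : ∑ a : F, psi p F (a * b) = if b = 0 then (Fintype.card F : ℂ) else 0 := by
  have := AddChar.sum_mulShift (R' := ℂ) b (psi_prim (p := p) (F := F))
  rw [this]
  split_ifs <;> simp

/-- The Weil sum. -/
noncomputable def Wc (p : ℕ) [Fact p.Prime] {F : Type} [Field F] [Fintype F]
    [Algebra (ZMod p) F] (d : ℤ) (a : F) : ℂ :=
  ∑ x : F, psi p F (a * x - x ^ d)

/-- Number of `x` with a given trace. -/
noncomputable def cnt (p : ℕ) [Fact p.Prime] {F : Type} [Field F] [Fintype F] [DecidableEq F]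
    [Algebra (ZMod p) F] (d : ℤ) (a : F) (c : ZMod p) : ℕ :=
  #{x : F | Algebra.trace (ZMod p) F (a * x - x ^ d) = c}

/-- The integer value of the Weil sum. -/
noncomputable def W (p : ℕ) [Fact p.Prime] {F : Type} [Field F] [Fintype F] [DecidableEq F]
    [Algebra (ZMod p) F] (d : ℤ) (a : F) : ℤ := (cnt p d a 0 : ℤ) - cnt p d a 1

theorem smul_zpow_base {d : ℤ} (hd1 : d ≡ 1 [ZMOD ((p : ℤ) - 1)]) {c : ZMod p} (hc : c ≠ 0) :
    (algebraMap (ZMod p) F c) ^ d = algebraMap (ZMod p) F c := by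
  obtain ⟨k, hk⟩ := hd1.symm.dvd
  have h1 : d = 1 + ((p : ℤ) - 1) * k := by linarith
  have hc' : algebraMap (ZMod p) F c ≠ 0 := by
    rw [Ne, map_eq_zero]; exact hc
  have h2 : (algebraMap (ZMod p) F c) ^ ((p : ℤ) - 1) = 1 := by
    have h3 : ((p : ℤ) - 1) = ((p - 1 : ℕ) : ℤ) := by
      have := (Fact.out : p.Prime).one_lt
      push_cast [Nat.cast_sub this.le]
      ring
    rw [h3, zpow_natCast, ← map_pow, ZMod.pow_card_sub_one_eq_one hc, map_one]
  rw [h1, zpow_add₀ hc', zpow_one, zpow_mul, h2, one_zpow, mul_one]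

theorem cnt_eq {d : ℤ} (hd1 : d ≡ 1 [ZMOD ((p : ℤ) - 1)]) (a : F) {c : ZMod p} (hc : c ≠ 0) :
    cnt p d a c = cnt p d a 1 := by
  unfold cnt
  have hc' : algebraMap (ZMod p) F c ≠ 0 := by
    rw [Ne, map_eq_zero]; exact hc
  symm
  refine Finset.card_bij (fun x _ => algebraMap (ZMod p) F c * x) ?_ ?_ ?_
  · intro x hx
    simp only [mem_filter, mem_univ, true_and] at hx ⊢
    rw [mul_zpow, smul_zpow_base hd1 hc]
    have : a * (algebraMap (ZMod p) F c * x) - algebraMap (ZMod p) F c * x ^ d =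
        c • (a * x - x ^ d) := by
      rw [Algebra.smul_def]; ring
    rw [this, map_smul, hx, smul_eq_mul, mul_one]
  · intro x _ y _ h
    exact mul_left_cancel₀ hc' h
  · intro y hy
    simp only [mem_filter, mem_univ, true_and] at hy ⊢
    refine ⟨(algebraMap (ZMod p) F c)⁻¹ * y, ?_, by
      rw [← mul_assoc, mul_inv_cancel₀ hc', one_mul]⟩
    rw [mul_zpow, inv_zpow, smul_zpow_base hd1 hc, ← map_inv₀]
    have : a * (algebraMap (ZMod p) F c⁻¹ * y) - algebraMap (ZMod p) F c⁻¹ * y ^ d =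
        c⁻¹ • (a * y - y ^ d) := by
      rw [Algebra.smul_def]; ring
    rw [this, map_smul, hy, smul_eq_mul, inv_mul_cancel₀ hc]

theorem Wc_eq {d : ℤ} (hd1 : d ≡ 1 [ZMOD ((p : ℤ) - 1)]) (a : F) :
    Wc p d a = (W p d a : ℂ) := by
  have h1 : Wc p d a = ∑ c : ZMod p, (cnt p d a c : ℂ) * ZMod.stdAddChar c := by
    unfold Wc cnt
    simp only [psi_apply]
    rw [← Finset.sum_fiberwise (s := univ) (g := fun x : F => Algebra.trace (ZMod p) F (a * x - x ^ d))]
    refine Finset.sum_congr rfl fun c _ => ?_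
    rw [Finset.sum_congr rfl (g := fun _ => ZMod.stdAddChar c)
      (fun x hx => by rw [(Finset.mem_filter.1 hx).2]), Finset.sum_const, nsmul_eq_mul]
  have h2 : ∑ c : ZMod p, (ZMod.stdAddChar c : ℂ) = 0 := by
    apply AddChar.sum_eq_zero_of_ne_one
    rw [AddChar.ne_one_iff]
    refine ⟨1, fun h => ?_⟩
    rw [← (ZMod.stdAddChar (N := p)).map_zero_eq_one] at h
    exact one_ne_zero (ZMod.injective_stdAddChar h)
  have h3 : ∀ c : ZMod p, (cnt p d a c : ℂ) * ZMod.stdAddChar c =
      (cnt p d a 1 : ℂ) * ZMod.stdAddChar c +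
        (if c = 0 then ((cnt p d a 0 : ℂ) - cnt p d a 1) else 0) := by
    intro c
    by_cases hc : c = 0
    · subst hc
      rw [if_pos rfl, AddChar.map_zero_eq_one]
      ring
    · rw [if_neg hc, cnt_eq hd1 a hc, add_zero]
  rw [h1, Finset.sum_congr rfl (fun c _ => h3 c), Finset.sum_add_distrib, ← Finset.mul_sum, h2,
    mul_zero, zero_add, Finset.sum_ite_eq' univ (0 : ZMod p)]
  simp [W]

/-- `x ↦ x ^ d` on the nonzero elements. -/
theorem exists_zpow_eq {d : ℤ} (hd : Int.gcd d ((Fintype.card F : ℤ) - 1) = 1) {b : F} (hb : b ≠ 0) :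
    ∃ c : F, c ≠ 0 ∧ c ^ d = b := by
  have h1 : Function.Injective (fun u : Fˣ => u ^ d) := by
    intro u v h
    have h2 : (u / v) ^ d = 1 := by
      rw [div_zpow]
      exact div_eq_one.2 h
    have h3 : (u / v) ^ ((Fintype.card F : ℤ) - 1) = 1 := by
      have h4 : ((Fintype.card F : ℤ) - 1) = ((Fintype.card F - 1 : ℕ) : ℤ) := by
        have := Fintype.card_pos (α := F)
        push_cast [Nat.cast_sub (show 1 ≤ Fintype.card F by omega)]
        ring
      rw [h4, zpow_natCast, ← Fintype.card_units]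
      exact pow_card_eq_one
    have h5 : (u / v) ^ (Int.gcd d ((Fintype.card F : ℤ) - 1) : ℤ) = 1 := by
      rw [Int.gcd_eq_gcd_ab, zpow_add, zpow_mul, zpow_mul, h2, h3, one_zpow, one_zpow, one_mul]
    rw [hd, Nat.cast_one, zpow_one] at h5
    exact div_eq_one.1 h5
  obtain ⟨c, hc⟩ := (Finite.injective_iff_surjective.1 h1) (Units.mk0 b hb)
  refine ⟨c, c.ne_zero, ?_⟩
  have := congrArg (fun u : Fˣ => (u : F)) hc
  simpa using this

theorem psi_sum {ι : Type*} (s : Finset ι) (f : ι → F) :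
    psi p F (∑ i ∈ s, f i) = ∏ i ∈ s, psi p F (f i) := by
  classical
  induction s using Finset.induction_on with
  | empty => simp
  | insert a s ha ih => rw [Finset.sum_insert ha, Finset.prod_insert ha, AddChar.map_add_eq_mul, ih]

/-- Vectors with sum zero. -/
noncomputable def Z (F : Type) [Field F] [Fintype F] [DecidableEq F] (k : ℕ) :
    Finset (Fin k → F) := {x | ∑ i, x i = 0}

theorem moment (d : ℤ) (k : ℕ) :
    ∑ a : F, Wc p d a ^ k = Fintype.card F * ∑ x ∈ Z F k, psi p F (-∑ i, x i ^ d) := by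
  have h1 : ∀ a : F, Wc p d a ^ k =
      ∑ x : Fin k → F, psi p F (a * ∑ i, x i) * psi p F (-∑ i, x i ^ d) := by
    intro a
    unfold Wc
    rw [Fintype.sum_pow]
    refine Finset.sum_congr rfl fun x _ => ?_
    rw [← psi_sum, ← AddChar.map_add_eq_mul, Finset.sum_sub_distrib, Finset.mul_sum,
      sub_eq_add_neg]
  rw [Finset.sum_congr rfl fun a _ => h1 a, Finset.sum_comm, Finset.mul_sum]
  unfold Z
  rw [Finset.sum_filter]
  refine Finset.sum_congr rfl fun x _ => ?_
  rw [← Finset.sum_mul, sum_psi_mul]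
  split_ifs with h
  · rfl
  · rw [zero_mul]

theorem card_Z (p : ℕ) [Fact p.Prime] (F : Type) [Field F] [Fintype F] [DecidableEq F]
    [Algebra (ZMod p) F] {k : ℕ} (hk : 1 ≤ k) : (Fintype.card F : ℂ) * #(Z F k) = (Fintype.card F : ℂ) ^ k := by
  have h1 : ∑ a : F, (∑ x : F, psi p F (x * a)) ^ k = (Fintype.card F : ℂ) ^ k := by
    have : ∀ a : F, (∑ x : F, psi p F (x * a)) ^ k = if a = 0 then (Fintype.card F : ℂ) ^ k else 0 := by
      intro a
      rw [sum_psi_mul]
      split_ifs with h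
      · rfl
      · rw [zero_pow (by omega)]
    rw [Finset.sum_congr rfl fun a _ => this a, Finset.sum_ite_eq' univ (0 : F)]
    simp
  rw [← h1]
  have h2 : ∀ a : F, (∑ x : F, psi p F (x * a)) ^ k = ∑ x : Fin k → F, psi p F (a * ∑ i, x i) := by
    intro a
    rw [Fintype.sum_pow]
    refine Finset.sum_congr rfl fun x _ => ?_
    rw [← psi_sum, Finset.mul_sum]
    congr 1
    exact Finset.sum_congr rfl fun i _ => mul_comm _ _
  rw [Finset.sum_congr rfl fun a _ => h2 a, Finset.sum_comm]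
  simp only [sum_psi_mul]
  rw [← Finset.sum_filter, Finset.sum_const, nsmul_eq_mul, mul_comm]
  rfl

theorem moment2 {d : ℤ} (hd : Int.gcd d ((Fintype.card F : ℤ) - 1) = 1) {k : ℕ} (hk : 1 ≤ k) :
    ((Fintype.card F : ℂ) - 1) * ∑ a : F, Wc p d a ^ k =
      Fintype.card F * (Fintype.card F * #{x ∈ Z F k | ∑ i, x i ^ d = 0}) -
        (Fintype.card F : ℂ) ^ k := by
  have h1 : ∀ m : F, m ≠ 0 → ∑ x ∈ Z F k, psi p F (m * (∑ i, x i ^ d)) =
      ∑ x ∈ Z F k, psi p F (-∑ i, x i ^ d) := by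
    intro m hm
    obtain ⟨c, hc, hcd⟩ := exists_zpow_eq hd (neg_ne_zero.2 hm)
    refine Finset.sum_bij (fun x _ => fun i => c * x i) ?_ ?_ ?_ ?_
    · intro x hx
      simp only [Z, mem_filter, mem_univ, true_and] at hx ⊢
      rw [← Finset.mul_sum, hx, mul_zero]
    · intro x _ y _ h
      funext i
      exact mul_left_cancel₀ hc (congrFun h i)
    · intro y hy
      simp only [Z, mem_filter, mem_univ, true_and] at hy
      refine ⟨fun i => c⁻¹ * y i, ?_, ?_⟩
      · simp only [Z, mem_filter, mem_univ, true_and]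
        rw [← Finset.mul_sum, hy, mul_zero]
      · funext i
        rw [← mul_assoc, mul_inv_cancel₀ hc, one_mul]
    · intro x _
      congr 1
      simp only [mul_zpow]
      rw [← Finset.mul_sum, hcd]
      ring
  have h2 : ∑ m : F, ∑ x ∈ Z F k, psi p F (m * (∑ i, x i ^ d)) =
      Fintype.card F * #{x ∈ Z F k | ∑ i, x i ^ d = 0} := by
    rw [Finset.sum_comm]
    simp only [sum_psi_mul]
    rw [← Finset.sum_filter, Finset.sum_const, nsmul_eq_mul, mul_comm]
  have h3 : ∑ m : F, ∑ x ∈ Z F k, psi p F (m * (∑ i, x i ^ d)) =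
      #(Z F k) + ((Fintype.card F : ℂ) - 1) * ∑ x ∈ Z F k, psi p F (-∑ i, x i ^ d) := by
    rw [← Finset.add_sum_erase univ _ (mem_univ (0 : F))]
    congr 1
    · simp
    · rw [Finset.sum_congr rfl (fun m hm => h1 m (Finset.ne_of_mem_erase hm)), Finset.sum_const,
        Finset.card_erase_of_mem (mem_univ _), Finset.card_univ, nsmul_eq_mul,
        Nat.cast_sub (Fintype.card_pos (α := F)), Nat.cast_one]
  have h4 := card_Z p F hk
  rw [h2] at h3
  rw [moment]
  linear_combination (-(Fintype.card F : ℂ)) * h3 - h4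

/-- The moments as integers. -/
theorem momentZ {d : ℤ} (hd : Int.gcd d ((Fintype.card F : ℤ) - 1) = 1)
    (hd1 : d ≡ 1 [ZMOD ((p : ℤ) - 1)]) {k : ℕ} (hk : 1 ≤ k) :
    ((Fintype.card F : ℤ) - 1) * ∑ a : F, W p d a ^ k =
      Fintype.card F * (Fintype.card F * #{x ∈ Z F k | ∑ i, x i ^ d = 0}) -
        (Fintype.card F : ℤ) ^ k := by
  have h := moment2 (p := p) hd hk
  simp only [Wc_eq hd1] at h
  exact_mod_cast h

theorem W_zero {d : ℤ} (hd : Int.gcd d ((Fintype.card F : ℤ) - 1) = 1) (hd0 : d ≠ 0)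
    (hd1 : d ≡ 1 [ZMOD ((p : ℤ) - 1)]) : W p d (0 : F) = 0 := by
  have h1 : Wc p d (0 : F) = 0 := by
    unfold Wc
    simp only [zero_mul, zero_sub]
    have h2 : Function.Bijective (fun x : F => -x ^ d) := by
      apply Finite.surjective_iff_bijective.1
      intro b
      by_cases hb : b = 0
      · exact ⟨0, by simp [hb, zero_zpow d hd0]⟩
      · obtain ⟨c, _, hc⟩ := exists_zpow_eq hd (neg_ne_zero.2 hb)
        exact ⟨c, by simp [hc]⟩
    rw [h2.sum_comp (fun y => psi p F y)]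
    exact AddChar.sum_eq_zero_of_ne_one (by
      have := psi_prim (p := p) (F := F) (one_ne_zero)
      simpa using this)
  rw [Wc_eq hd1] at h1
  exact_mod_cast h1

end

end Pool.Agent.H67.Hel
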