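import Pool.Agent.H67.Helleseth

/-!
# Weil sums of binomials: the product of the distinct values
-/

set_option autoImplicit false

open Finset

namespace Pool.Agent.H67.Hel

/-- cancelling a factor of bounded valuation. -/
theorem pow_dvd_cancel {p : ℤ} (hp : Prime p) {A B : ℤ} {k e : ℕ} (h : p ^ k ∣ A * B)
    (hB : ¬ p ^ (e + 1) ∣ B) : p ^ (k - e) ∣ A := by
  have hB0 : B ≠ 0 := fun h0 => hB (by rw [h0]; exact dvd_zero _)
  obtain ⟨m, c, hc, hBc⟩ := WfDvdMonoid.max_power_factor hB0 hp.irreducible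
  have hme : m ≤ e := by
    by_contra hlt
    exact hB (by rw [hBc]; exact dvd_mul_of_dvd_left (pow_dvd_pow p (by omega)) c)
  rcases le_or_gt k m with hkm | hkm
  · rw [show k - e = 0 by omega, pow_zero]
    exact one_dvd _
  · have h1 : p ^ m * p ^ (k - m) ∣ p ^ m * (c * A) := by
      rw [← pow_add, show m + (k - m) = k by omega]
      have : p ^ m * (c * A) = A * B := by rw [hBc]; ring
      rw [this]; exact h
    have h2 : p ^ (k - m) ∣ c * A := (mul_dvd_mul_iff_left (pow_ne_zero m hp.ne_zero)).1 h1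
    have h3 : p ^ (k - m) ∣ A := hp.pow_dvd_of_dvd_mul_left (k - m) hc h2
    exact (pow_dvd_pow p (by omega)).trans h3

section

variable {p : ℕ} [Fact p.Prime] {F : Type} [Field F] [Fintype F] [DecidableEq F]
  [Algebra (ZMod p) F]

theorem card_N1 {d : ℤ} (hd0 : d ≠ 0) :
    #{x ∈ Z F 1 | ∑ i, x i ^ d = 0} = 1 := by
  rw [Finset.card_eq_one]
  refine ⟨fun _ => 0, ?_⟩
  ext x
  simp only [Z, mem_filter, mem_univ, true_and, Finset.mem_singleton, Fin.sum_univ_one]
  constructor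
  · rintro ⟨h, -⟩
    funext i
    rw [Fin.eq_zero i, h]
  · rintro rfl
    exact ⟨rfl, zero_zpow d hd0⟩

theorem neg_zpow_eq {d : ℤ} (hd1 : d ≡ 1 [ZMOD ((p : ℤ) - 1)]) (x : F) :
    (-x) ^ d = - x ^ d := by
  have h1 := smul_zpow_base (p := p) (F := F) hd1 (c := -1) (neg_ne_zero.2 one_ne_zero)
  have h2 : (algebraMap (ZMod p) F (-1)) = -1 := by rw [map_neg, map_one]
  rw [h2] at h1
  rw [show -x = -1 * x by ring, mul_zpow, h1]
  ring

theorem card_N2 {d : ℤ} (hd1 : d ≡ 1 [ZMOD ((p : ℤ) - 1)]) :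
    #{x ∈ Z F 2 | ∑ i, x i ^ d = 0} = Fintype.card F := by
  rw [← Finset.card_univ]
  symm
  refine Finset.card_bij (fun a _ => ![a, -a]) ?_ ?_ ?_
  · intro a _
    simp only [Z, mem_filter, mem_univ, true_and, Fin.sum_univ_two]
    simp [neg_zpow_eq (p := p) hd1]
  · intro a _ b _ h
    simpa using congrFun h 0
  · intro x hx
    simp only [Z, mem_filter, mem_univ, true_and, Fin.sum_univ_two] at hx
    refine ⟨x 0, mem_univ _, ?_⟩
    funext i
    fin_cases i
    · rfl
    · simp only [Fin.mk_one, Matrix.cons_val_one, Matrix.cons_val_fin_one]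
      have := hx.1
      linear_combination (-1 : F) * this

variable (hq : 2 < Fintype.card F)

section
include hq

theorem d_ne_zero {d : ℤ} (hd : Int.gcd d ((Fintype.card F : ℤ) - 1) = 1) : d ≠ 0 := by
  rintro rfl
  rw [Int.gcd_zero_left] at hd
  omega

theorem S_succ {d : ℤ} (hd : Int.gcd d ((Fintype.card F : ℤ) - 1) = 1)
    (hd1 : d ≡ 1 [ZMOD ((p : ℤ) - 1)]) {k : ℕ} (hk : 1 ≤ k) :
    ((Fintype.card F : ℤ) - 1) * ∑ a ∈ univ.filter (fun a : F => a ≠ 0), W p d a ^ k =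
      Fintype.card F * (Fintype.card F * #{x ∈ Z F k | ∑ i, x i ^ d = 0}) -
        (Fintype.card F : ℤ) ^ k := by
  rw [← momentZ hd hd1 hk]
  congr 1
  rw [Finset.sum_filter]
  refine Finset.sum_congr rfl fun a _ => ?_
  split_ifs with h
  · rfl
  · push Not at h
    rw [h, W_zero hd (d_ne_zero hq hd) hd1, zero_pow (by omega)]

theorem S_one {d : ℤ} (hd : Int.gcd d ((Fintype.card F : ℤ) - 1) = 1)
    (hd1 : d ≡ 1 [ZMOD ((p : ℤ) - 1)]) :
    ∑ a ∈ univ.filter (fun a : F => a ≠ 0), W p d a = Fintype.card F := by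
  have h := S_succ hq hd hd1 (k := 1) le_rfl
  rw [card_N1 (d_ne_zero hq hd)] at h
  simp only [pow_one] at h
  have h2 : ((Fintype.card F : ℤ) - 1) ≠ 0 := by omega
  apply mul_left_cancel₀ h2
  rw [h]
  push_cast
  ring

theorem S_two {d : ℤ} (hd : Int.gcd d ((Fintype.card F : ℤ) - 1) = 1)
    (hd1 : d ≡ 1 [ZMOD ((p : ℤ) - 1)]) :
    ∑ a ∈ univ.filter (fun a : F => a ≠ 0), W p d a ^ 2 = (Fintype.card F : ℤ) ^ 2 := by
  have h := S_succ hq hd hd1 (k := 2) (by norm_num)
  rw [card_N2 (p := p) hd1] at h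
  have h2 : ((Fintype.card F : ℤ) - 1) ≠ 0 := by omega
  apply mul_left_cancel₀ h2
  rw [h]
  ring

theorem S_dvd {d : ℤ} (hd : Int.gcd d ((Fintype.card F : ℤ) - 1) = 1)
    (hd1 : d ≡ 1 [ZMOD ((p : ℤ) - 1)]) {k : ℕ} (hk : 2 ≤ k) :
    (Fintype.card F : ℤ) ^ 2 ∣ ∑ a ∈ univ.filter (fun a : F => a ≠ 0), W p d a ^ k := by
  have h := S_succ hq hd hd1 (k := k) (by omega)
  have h1 : (Fintype.card F : ℤ) ^ 2 ∣ ((Fintype.card F : ℤ) - 1) *
      ∑ a ∈ univ.filter (fun a : F => a ≠ 0), W p d a ^ k := by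
    rw [h]
    apply dvd_sub
    · exact ⟨#{x ∈ Z F k | ∑ i, x i ^ d = 0}, by ring⟩
    · exact pow_dvd_pow _ hk
  have h2 : IsCoprime ((Fintype.card F : ℤ) ^ 2) ((Fintype.card F : ℤ) - 1) := by
    apply IsCoprime.pow_left
    exact ⟨1, -1, by ring⟩
  exact h2.dvd_of_dvd_mul_left h1

theorem poly_dvd {d : ℤ} (hd : Int.gcd d ((Fintype.card F : ℤ) - 1) = 1)
    (hd1 : d ≡ 1 [ZMOD ((p : ℤ) - 1)]) (P : Polynomial ℤ) :
    (Fintype.card F : ℤ) ^ 2 ∣ ∑ a ∈ univ.filter (fun a : F => a ≠ 0), P.eval (W p d a) -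
      (((Fintype.card F : ℤ) - 1) * P.coeff 0 + Fintype.card F * P.coeff 1) := by
  induction P using Polynomial.induction_on' with
  | add P Q hP hQ =>
    have := dvd_add hP hQ
    refine this.trans (dvd_of_eq ?_)
    simp only [Polynomial.eval_add, Finset.sum_add_distrib, Polynomial.coeff_add]
    ring
  | monomial k c =>
    simp only [Polynomial.eval_monomial, ← Finset.mul_sum, Polynomial.coeff_monomial]
    have hk : k = 0 ∨ k = 1 ∨ 2 ≤ k := by omega
    rcases hk with rfl | rfl | hk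
    · have h1 : (#(univ.filter (fun a : F => a ≠ 0)) : ℤ) = Fintype.card F - 1 := by
        rw [Finset.filter_ne' univ (0 : F), Finset.card_erase_of_mem (mem_univ _),
          Finset.card_univ, Nat.cast_sub (by omega), Nat.cast_one]
      simp only [pow_zero, Finset.sum_const, nsmul_eq_mul, mul_one, h1]
      simp
      ring_nf
      simp
    · simp only [pow_one, S_one hq hd hd1]
      simp
      ring_nf
      simp
    · rw [if_neg (by omega), if_neg (by omega), mul_zero, mul_zero, add_zero, sub_zero]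
      exact dvd_mul_of_dvd_right (S_dvd hq hd hd1 hk) c

/-- The congruence for the number of zeros. -/
theorem main_congr {n : ℕ} (hF : Fintype.card F = p ^ n) {d : ℤ}
    (hd : Int.gcd d ((Fintype.card F : ℤ) - 1) = 1)
    (hd1 : d ≡ 1 [ZMOD ((p : ℤ) - 1)]) {e m : ℕ}
    (he : ¬ (p : ℤ) ^ (e + 1) ∣ ∏ v ∈ ((univ.filter (fun a : F => a ≠ 0)).image (W p d)).erase 0, v)
    (hm : ∀ a : F, a ≠ 0 → W p d a ≠ 0 → ¬ (p : ℤ) ^ (m + 1) ∣ W p d a) :
    (p : ℤ) ^ (min (2 * n - e) (n - m)) ∣ (#(univ.filter (fun a : F => a ≠ 0 ∧ W p d a = 0)) : ℤ) + 1 := by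
  classical
  set V := ((univ.filter (fun a : F => a ≠ 0)).image (W p d)).erase 0 with hV
  have hp : Prime (p : ℤ) := Nat.prime_iff_prime_int.1 (Fact.out : p.Prime)
  set P : Polynomial ℤ := ∏ v ∈ V, (Polynomial.X - Polynomial.C v) with hP
  have hP0 : P.coeff 0 = ∏ v ∈ V, (-v) := by
    rw [Polynomial.coeff_zero_eq_eval_zero, hP, Polynomial.eval_prod]
    simp
  have hP1 : P.coeff 1 = ∑ v ∈ V, ∏ w ∈ V.erase v, (-w) := by
    have h1 := Polynomial.coeff_derivative P 0
    rw [Polynomial.coeff_zero_eq_eval_zero, hP, Polynomial.derivative_prod_finset,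
      Polynomial.eval_finset_sum] at h1
    simp only [Polynomial.eval_mul, Polynomial.eval_prod, Polynomial.eval_sub, Polynomial.eval_X,
      Polynomial.eval_C, Polynomial.derivative_sub, Polynomial.derivative_X,
      Polynomial.derivative_C, sub_zero, Polynomial.eval_one, mul_one, zero_sub, zero_add,
      Nat.cast_zero] at h1
    rw [hP]
    exact h1.symm
  have hassoc : Associated (P.coeff 0) (∏ v ∈ V, v) := by
    rw [hP0, Finset.prod_neg]
    exact (associated_unit_mul_left _ _ ((isUnit_one.neg).pow _))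
  have hsum : ∑ a ∈ univ.filter (fun a : F => a ≠ 0), P.eval (W p d a) =
      #(univ.filter (fun a : F => a ≠ 0 ∧ W p d a = 0)) * P.coeff 0 := by
    rw [← Finset.filter_filter, Finset.card_filter, Nat.cast_sum, Finset.sum_mul]
    refine Finset.sum_congr rfl fun a ha => ?_
    split_ifs with h
    · rw [h, Nat.cast_one, one_mul, Polynomial.coeff_zero_eq_eval_zero]
    · rw [Nat.cast_zero, zero_mul, hP, Polynomial.eval_prod]
      refine Finset.prod_eq_zero (i := W p d a) ?_ (by simp)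
      rw [hV, Finset.mem_erase]
      exact ⟨h, Finset.mem_image_of_mem _ ha⟩
  have hmain := poly_dvd hq hd hd1 P
  rw [hsum] at hmain
  have hPne : P.coeff 0 ≠ 0 := by
    rw [hP0, Finset.prod_ne_zero_iff]
    intro v hv
    rw [neg_ne_zero]
    exact (Finset.mem_erase.1 hv).1
  -- the exact exponent
  obtain ⟨e', c, hc, hPc⟩ := WfDvdMonoid.max_power_factor hPne hp.irreducible
  have hnot : ¬ (p : ℤ) ^ (e' + 1) ∣ P.coeff 0 := by
    rw [hPc, pow_succ]
    intro h
    exact hc ((mul_dvd_mul_iff_left (pow_ne_zero e' hp.ne_zero)).1 h)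
  have hdv : (p : ℤ) ^ e' ∣ P.coeff 0 := ⟨c, hPc⟩
  have hee : e' ≤ e := by
    by_contra hlt
    exact he ((pow_dvd_pow _ (by omega)).trans (hassoc.dvd_iff_dvd_right.1 hdv))
  have hT : ∀ v ∈ V, (p : ℤ) ^ (e' - m) ∣ ∏ w ∈ V.erase v, (-w) := by
    intro v hv
    have h1 : (∏ w ∈ V.erase v, (-w)) * v = - P.coeff 0 := by
      rw [hP0, ← Finset.mul_prod_erase V (fun w => -w) hv]
      ring
    refine pow_dvd_cancel (B := v) hp ?_ ?_
    · rw [h1]; exact (dvd_neg).2 hdv
    · rw [hV, Finset.mem_erase, Finset.mem_image] at hv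
      obtain ⟨hv0, a, ha, rfl⟩ := hv
      exact hm a (Finset.mem_filter.1 ha).2 hv0
  have hP1d : (p : ℤ) ^ (e' - m) ∣ P.coeff 1 := by
    rw [hP1]
    exact Finset.dvd_sum hT
  have hq' : (Fintype.card F : ℤ) = (p : ℤ) ^ n := by
    rw [hF]; push_cast; ring
  have hfin : (p : ℤ) ^ (min (2 * n) (n + (e' - m))) ∣
      ((#(univ.filter (fun a : F => a ≠ 0 ∧ W p d a = 0)) : ℤ) + 1) * P.coeff 0 := by
    have h1 : (p : ℤ) ^ (min (2 * n) (n + (e' - m))) ∣ (Fintype.card F : ℤ) ^ 2 := by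
      rw [hq', ← pow_mul]
      exact pow_dvd_pow _ (by omega)
    have h2 : (p : ℤ) ^ (min (2 * n) (n + (e' - m))) ∣
        (Fintype.card F : ℤ) * (P.coeff 0 + P.coeff 1) := by
      refine (pow_dvd_pow _ (min_le_right _ _)).trans ?_
      rw [hq', pow_add]
      refine mul_dvd_mul_left _ (dvd_add ?_ hP1d)
      exact (pow_dvd_pow _ (by omega)).trans hdv
    have h3 := dvd_add (h1.trans hmain) h2
    refine h3.trans (dvd_of_eq ?_)
    ring
  have := pow_dvd_cancel hp hfin hnot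
  exact (pow_dvd_pow _ (by omega)).trans this

/-- without zeros the values are smaller than `q`. -/
theorem abs_lt_of_no_zero {d : ℤ} (hd : Int.gcd d ((Fintype.card F : ℤ) - 1) = 1)
    (hd1 : d ≡ 1 [ZMOD ((p : ℤ) - 1)]) (h0 : ∀ a : F, a ≠ 0 → W p d a ≠ 0) {a : F} (ha : a ≠ 0) :
    |W p d a| < Fintype.card F := by
  have h1 := S_two hq hd hd1
  have ha' : a ∈ univ.filter (fun a : F => a ≠ 0) := by simpa using ha
  rw [← Finset.add_sum_erase _ _ ha'] at h1
  have hne : 0 < ∑ x ∈ (univ.filter (fun a : F => a ≠ 0)).erase a, W p d x ^ 2 := by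
    apply Finset.sum_pos
    · intro b hb
      have := h0 b (Finset.mem_filter.1 (Finset.mem_of_mem_erase hb)).2
      positivity
    · rw [← Finset.card_pos, Finset.card_erase_of_mem ha', Finset.filter_ne' univ (0 : F),
        Finset.card_erase_of_mem (mem_univ _), Finset.card_univ]
      omega
  have h2 : |W p d a| ^ 2 < (Fintype.card F : ℤ) ^ 2 := by
    rw [sq_abs]
    linarith
  exact lt_of_pow_lt_pow_left₀ 2 (by positivity) h2

/-- If the product of the distinct values is not divisible by `q ^ 2`, then there is a zero. -/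
theorem main_zero {n : ℕ} (hF : Fintype.card F = p ^ n) {d : ℤ}
    (hd : Int.gcd d ((Fintype.card F : ℤ) - 1) = 1)
    (hd1 : d ≡ 1 [ZMOD ((p : ℤ) - 1)])
    (he : ¬ (p : ℤ) ^ (2 * n) ∣
      ∏ v ∈ ((univ.filter (fun a : F => a ≠ 0)).image (W p d)).erase 0, v) :
    ∃ a : F, a ≠ 0 ∧ W p d a = 0 := by
  by_contra hcon
  push Not at hcon
  have hn : 1 ≤ n := by
    rcases Nat.eq_zero_or_pos n with rfl | h
    · rw [pow_zero] at hF; omega
    · exact h
  have h1 : (#(univ.filter (fun a : F => a ≠ 0 ∧ W p d a = 0)) : ℤ) = 0 := by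
    rw [Nat.cast_eq_zero, Finset.card_eq_zero, Finset.filter_eq_empty_iff]
    intro a _ h
    exact hcon a h.1 h.2
  have h2 := main_congr hq hF hd hd1 (e := 2 * n - 1) (m := n - 1)
    (by rw [show 2 * n - 1 + 1 = 2 * n by omega]; exact he) (by
      intro a ha h0 hdiv
      rw [show n - 1 + 1 = n by omega] at hdiv
      have h3 := abs_lt_of_no_zero hq hd hd1 hcon ha
      have h4 : (Fintype.card F : ℤ) = (p : ℤ) ^ n := by rw [hF]; push_cast; ring
      rw [h4] at h3
      exact h0 (Int.eq_zero_of_abs_lt_dvd hdiv h3))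
  rw [h1, zero_add, show min (2 * n - (2 * n - 1)) (n - (n - 1)) = 1 by omega, pow_one] at h2
  have h5 : (p : ℤ) ∣ 1 := h2
  have hp : Prime (p : ℤ) := Nat.prime_iff_prime_int.1 (Fact.out : p.Prime)
  exact hp.not_isUnit (isUnit_of_dvd_one h5)

end

end

end Pool.Agent.H67.Hel
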